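import Pool.Agent.FGC.SharpGrp

/-!
MP_fc334d: the Thue-Morse constant is the limit of `(N - c) / (2 N)`.
-/

set_option autoImplicit false

namespace Pool.Agent.FGC

open Filter Topology

/-- The Thue-Morse constant `0.412454...`, as `1/2 - 1/4 ∏ (1 - 2^(-2^j))`. -/
noncomputable def tau : ℝ := 1 / 2 - 1 / 4 * ∏' j : ℕ, (1 - (1 / 2 : ℝ) ^ (2 ^ j))

theorem mult : Multipliable (fun j : ℕ => 1 - (1 / 2 : ℝ) ^ (2 ^ j)) := by
  have h : Summable (fun j : ℕ => -((1 / 2 : ℝ) ^ (2 ^ j))) := by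
    apply Summable.neg
    refine Summable.of_nonneg_of_le (fun j => by positivity) (fun j => ?_) summable_geometric_two
    exact pow_le_pow_of_le_one (by norm_num) (by norm_num) (Nat.lt_two_pow_self).le
  have := Real.multipliable_one_add_of_summable h
  simpa [sub_eq_add_neg] using this

theorem cc_eq (k : ℕ) : (cc k : ℝ) * 2 = 2 ^ (2 ^ k) * ∏ j ∈ Finset.range k, (1 - (1 / 2 : ℝ) ^ (2 ^ j)) := by
  induction k with
  | zero => simp [cc]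
  | succ k ih =>
    rw [cc_succ, Finset.prod_range_succ, ← mul_assoc]
    have h1 : (2 : ℝ) ^ (2 ^ (k + 1)) = 2 ^ (2 ^ k) * 2 ^ (2 ^ k) := by
      rw [← pow_add]
      congr 1
      ring
    have h2 : (2 : ℝ) ^ (2 ^ k) * (1 / 2 : ℝ) ^ (2 ^ k) = 1 := by
      rw [← mul_pow]
      norm_num
    have h3 : ((cc k * (bb k - 1) : ℤ) : ℝ) * 2 = (cc k * 2) * (2 ^ (2 ^ k) - 1) := by
      unfold bb
      push_cast
      ring
    rw [h3, ih, h1]
    set P := ∏ j ∈ Finset.range k, (1 - (1 / 2 : ℝ) ^ (2 ^ j))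
    calc 2 ^ (2 ^ k) * P * (2 ^ (2 ^ k) - 1)
        = 2 ^ (2 ^ k) * P * (2 ^ (2 ^ k) - 2 ^ (2 ^ k) * (1 / 2 : ℝ) ^ (2 ^ k)) := by rw [h2]
      _ = _ := by ring

theorem tendsto_tau : Tendsto (fun k : ℕ => (((NN k : ℕ) : ℝ) - cc k) / (2 * ((NN k : ℕ) : ℝ))) atTop (𝓝 tau) := by
  have h1 : Tendsto (fun k : ℕ => ∏ j ∈ Finset.range k, (1 - (1 / 2 : ℝ) ^ (2 ^ j))) atTop
      (𝓝 (∏' j : ℕ, (1 - (1 / 2 : ℝ) ^ (2 ^ j)))) := mult.hasProd.tendsto_prod_nat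
  have h2 : Tendsto (fun k : ℕ => (1 : ℝ) / ((2 : ℝ) ^ (2 ^ k) + 1)) atTop (𝓝 0) := by
    have h3 : Tendsto (fun k : ℕ => (2 : ℝ) ^ (2 ^ k) + 1) atTop atTop := by
      apply tendsto_atTop_add_const_right
      have h4 : Tendsto (fun n : ℕ => (2 : ℝ) ^ n) atTop atTop := tendsto_pow_atTop_atTop_of_one_lt (by norm_num)
      exact h4.comp (tendsto_pow_atTop_atTop_of_one_lt (by norm_num))
    exact h3.const_div_atTop 1
  have h5 : ∀ k : ℕ, (((NN k : ℕ) : ℝ) - cc k) / (2 * ((NN k : ℕ) : ℝ))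
      = 1 / 2 - 1 / 4 * ((1 - 1 / ((2 : ℝ) ^ (2 ^ k) + 1)) * ∏ j ∈ Finset.range k, (1 - (1 / 2 : ℝ) ^ (2 ^ j))) := by
    intro k
    have h6 := cc_eq k
    have h7 : ((NN k : ℕ) : ℝ) = 2 ^ (2 ^ k) + 1 := by
      unfold NN
      push_cast
      rfl
    rw [h7]
    set P := ∏ j ∈ Finset.range k, (1 - (1 / 2 : ℝ) ^ (2 ^ j))
    set Q : ℝ := 2 ^ (2 ^ k)
    have h8 : 0 < Q + 1 := by positivity
    have h9 : (cc k : ℝ) = Q * P / 2 := by linarith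
    rw [h9]
    field_simp
    ring
  rw [show tau = 1 / 2 - 1 / 4 * ((1 - 0) * ∏' j : ℕ, (1 - (1 / 2 : ℝ) ^ (2 ^ j))) by unfold tau; ring]
  simp only [h5]
  exact ((((tendsto_const_nhds.sub h2).mul h1).const_mul _).const_sub _)

/-- Beyond the Thue-Morse threshold: doubling-closed subgroup codes with more than `2 ^ n` elements. -/
theorem beyond (p q : ℕ) (h : (q : ℝ) < tau * p) :
    ∃ k : ℕ, ∃ H : AddSubgroup (Fin (2 ^ k) → ZMod (p * NN k)), Nat.card H = 2 ^ (2 ^ k) + 1 ∧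
      (∀ x ∈ H, x ≠ 0 → ∃ i, q * NN k ≤ (x i).val ∧ q * NN k ≤ (-x i).val) ∧
      ∀ i, ∃ j, (∀ x ∈ H, x j = 2 * x i) ∨ (∀ x ∈ H, x j = -(2 * x i)) := by
  have hp : 0 < p := by
    rcases Nat.eq_zero_or_pos p with rfl | hp
    · have : (0 : ℝ) ≤ q := Nat.cast_nonneg q
      norm_num at h
      linarith
    · exact hp
  have hpR : (0 : ℝ) < p := by exact_mod_cast hp
  have h1 : (q : ℝ) / p < tau := by rwa [div_lt_iff₀ hpR]
  obtain ⟨k, hk⟩ := (tendsto_tau.eventually (eventually_gt_nhds h1)).exists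
  refine ⟨k, ?_⟩
  have hN : (0 : ℝ) < ((NN k : ℕ) : ℝ) := by exact_mod_cast NN_pos k
  rw [div_lt_div_iff₀ hpR (by positivity)] at hk
  have hk' : (2 * ((NN k : ℤ)) * q : ℤ) ≤ ((NN k : ℤ) - cc k) * p := by
    have h2 : ((2 * ((NN k : ℤ)) * q : ℤ) : ℝ) ≤ ((((NN k : ℤ) - cc k) * p : ℤ) : ℝ) := by
      push_cast
      linarith
    exact_mod_cast h2
  exact sharp_grp k p q hp hk'

end Pool.Agent.FGC
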