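import Mathlib

/-!
MP_fc334d: the orbit codes `(h, 2 h, 4 h, ...)` modulo Fermat numbers (sharpness of the Thue-Morse threshold).

`n = 2 ^ k`, `N = 2 ^ n + 1`, `c = ∏ j < k, (2 ^ (2 ^ j) - 1)`. For every integer `h` not divisible by `N` there is
`i < n` with `N - c ≤ 2 * ((2 ^ i * h) % N) ≤ N + c`.

PROOF. Suppose not. The numbers `e_i = |N - 2 x_i|`, `x_i = (2 ^ i * h) % N`, satisfy `e_(i+1) = |N - 2 e_i|`,
`e_(i+n) = e_i`, so they form a finite set `O_0` contained in `τ_0 (O_0)`, `τ_j e = |c_j N - b_j e|`,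
`b_j = 2 ^ (2 ^ j)`, `c_j = ∏ i < j, (b_i - 1)`. One descends: `O_(j+1)` consists of the elements of `O_j` below the
fixed point `c_j N / (b_j + 1)` of `τ_j`; elements below and above alternate and `τ_j ∘ τ_j = τ_(j+1)`. At level `k`
the maximum is `< c_k N - b_k c_k = c_k`, a contradiction.
-/

set_option autoImplicit false

namespace Pool.Agent.FGC

/-- `2 ^ (2 ^ j)`. -/
def bb (j : ℕ) : ℤ := 2 ^ (2 ^ j)

/-- `∏ i < j, (2 ^ (2 ^ i) - 1)`. -/
def cc : ℕ → ℤ
  | 0 => 1
  | j + 1 => cc j * (bb j - 1)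

theorem bb_zero : bb 0 = 2 := by norm_num [bb]

theorem bb_succ (j : ℕ) : bb (j + 1) = bb j ^ 2 := by
  unfold bb
  rw [← pow_mul, pow_succ]

theorem bb_ge (j : ℕ) : 2 ≤ bb j := by
  induction j with
  | zero => simp [bb]
  | succ j ih => rw [bb_succ]; nlinarith

theorem cc_succ (j : ℕ) : cc (j + 1) = cc j * (bb j - 1) := rfl

theorem cc_pos (j : ℕ) : 0 < cc j := by
  induction j with
  | zero => simp [cc]
  | succ j ih =>
    rw [cc_succ]
    have := bb_ge j
    apply mul_pos ih
    linarith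

theorem two_cc_le (j : ℕ) : 2 * cc j ≤ bb j := by
  induction j with
  | zero => simp [cc, bb]
  | succ j ih =>
    rw [cc_succ, bb_succ]
    have h1 := bb_ge j
    have h2 := cc_pos j
    nlinarith

/-- The key inequality. -/
theorem ineq (d : ℕ) : ∀ j : ℕ, cc j * (bb j ^ 2 - 2) * (bb (j + 1 + d) + 1) ≤ cc (j + 1 + d) * bb j ^ 2 * (bb j + 1) := by
  induction d with
  | zero =>
    intro j
    rw [add_zero, cc_succ, bb_succ]
    have h2 := cc_pos j
    have : cc j * (bb j - 1) * bb j ^ 2 * (bb j + 1) - cc j * (bb j ^ 2 - 2) * (bb j ^ 2 + 1) = 2 * cc j := by ring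
    linarith
  | succ d ih =>
    intro j
    have h := ih (j + 1)
    have he : j + 1 + 1 + d = j + 1 + (d + 1) := by ring
    rw [he] at h
    have hN : 0 < bb (j + 1 + (d + 1)) + 1 := by
      have := bb_ge (j + 1 + (d + 1))
      linarith
    generalize bb (j + 1 + (d + 1)) + 1 = N at h hN ⊢
    generalize cc (j + 1 + (d + 1)) = c at h ⊢
    rw [cc_succ, bb_succ] at h
    have ha := cc_pos j
    have hb := bb_ge j
    generalize bb j = b at h hb ⊢
    generalize cc j = a at h ha ⊢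
    have hP : 0 < b ^ 2 * (b ^ 2 + 1) := by positivity
    refine le_of_mul_le_mul_right ?_ hP
    have h1 : a * (b - 1) * ((b ^ 2) ^ 2 - 2) * N * (b + 1) ≤ c * (b ^ 2) ^ 2 * (b ^ 2 + 1) * (b + 1) :=
      mul_le_mul_of_nonneg_right h (by linarith)
    have h2 : 0 ≤ a * N := by positivity
    have h3 : a * (b - 1) * ((b ^ 2) ^ 2 - 2) * N * (b + 1) - a * (b ^ 2 - 2) * N * (b ^ 2 * (b ^ 2 + 1))
        = 2 * (a * N) := by ring
    have h4 : c * (b ^ 2) ^ 2 * (b ^ 2 + 1) * (b + 1) = c * b ^ 2 * (b + 1) * (b ^ 2 * (b ^ 2 + 1)) := by ring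
    linarith

/-- `b_j + 1` does not divide `c_j N`. -/
theorem not_fix (d j : ℕ) (e : ℤ) : e * (bb j + 1) ≠ cc j * (bb (j + 1 + d) + 1) := by
  intro h
  have h1 : bb j + 1 ∣ bb (j + 1 + d) - 1 := by
    have h2 : bb (j + 1 + d) = (bb j ^ 2) ^ (2 ^ d) := by
      unfold bb
      rw [← pow_mul, ← pow_mul]
      congr 1
      rw [pow_add, pow_succ]
      ring
    rw [h2]
    have h3 : bb j ^ 2 - 1 ∣ (bb j ^ 2) ^ (2 ^ d) - 1 := by
      simpa using sub_dvd_pow_sub_pow (bb j ^ 2) 1 (2 ^ d)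
    refine dvd_trans ⟨bb j - 1, by ring⟩ h3
  obtain ⟨m, hm⟩ := h1
  have h2 : bb j + 1 ∣ 2 * cc j := by
    refine ⟨e - cc j * m, ?_⟩
    have : cc j * (bb (j + 1 + d) + 1) = cc j * ((bb j + 1) * m + 2) := by rw [← hm]; ring
    rw [this] at h
    linarith
  have h3 := Int.le_of_dvd (by have := cc_pos j; linarith) h2
  have := two_cc_le j
  linarith

/-- The property which descends. -/
def PP (N c a b : ℤ) : Prop :=
  ∃ O : Finset ℤ, O.Nonempty ∧ ∀ e ∈ O, c < e ∧ e * (b - 1) < a * N ∧ ∃ e' ∈ O, e = |a * N - b * e'|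

theorem bound {N c a b : ℤ} (hb : 2 ≤ b) {O : Finset ℤ} (hO : O.Nonempty)
    (h : ∀ e ∈ O, c < e ∧ e * (b - 1) < a * N ∧ ∃ e' ∈ O, e = |a * N - b * e'|) :
    ∀ e ∈ O, e < a * N - b * c := by
  intro e he
  obtain ⟨M, hM, hmax⟩ := O.exists_max_image id hO
  have hle : e ≤ M := hmax e he
  obtain ⟨h1, h2, e', he', h3⟩ := h M hM
  have h4 : e' ≤ M := hmax e' he'
  have h5 := (h e' he').1
  rcases abs_cases (a * N - b * e') with ⟨h6, -⟩ | ⟨h6, -⟩
  · rw [h6] at h3
    nlinarith
  · rw [h6] at h3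
    nlinarith

theorem step {N c a b : ℤ} (hb : 2 ≤ b) (hc : 0 < c)
    (hI : a * (b ^ 2 - 2) * N ≤ c * b ^ 2 * (b + 1)) (hfix : ∀ e : ℤ, e * (b + 1) ≠ a * N)
    (h : PP N c a b) : PP N c (a * (b - 1)) (b ^ 2) := by
  obtain ⟨O, hO, h⟩ := h
  have hg := bound hb hO h
  have up : ∀ e ∈ O, e * (b + 1) < a * N → a * N < |a * N - b * e| * (b + 1) ∧ |a * N - b * e| = a * N - b * e := by
    intro e he h1
    have h2 := (h e he).1
    have h3 : 0 < a * N - b * e := by nlinarith
    rw [abs_of_pos h3]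
    refine ⟨?_, rfl⟩
    nlinarith
  have down : ∀ e ∈ O, a * N < e * (b + 1) → |a * N - b * e| * (b + 1) < a * N := by
    intro e he h1
    rcases abs_cases (a * N - b * e) with ⟨h6, -⟩ | ⟨h6, -⟩
    · rw [h6]
      nlinarith
    · rw [h6]
      have h2 := hg e he
      nlinarith
  classical
  refine ⟨O.filter (fun e => e * (b + 1) < a * N), ?_, ?_⟩
  · obtain ⟨e, he⟩ := hO
    rcases lt_trichotomy (e * (b + 1)) (a * N) with h1 | h1 | h1
    · exact ⟨e, Finset.mem_filter.mpr ⟨he, h1⟩⟩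
    · exact absurd h1 (hfix e)
    · obtain ⟨-, -, e', he', h2⟩ := h e he
      refine ⟨e', Finset.mem_filter.mpr ⟨he', ?_⟩⟩
      rcases lt_trichotomy (e' * (b + 1)) (a * N) with h3 | h3 | h3
      · exact h3
      · exact absurd h3 (hfix e')
      · have := down e' he' h3
        rw [← h2] at this
        linarith
  · intro e he
    obtain ⟨he, h1⟩ := Finset.mem_filter.mp he
    obtain ⟨hc1, h2, e', he', h3⟩ := h e he
    refine ⟨hc1, ?_, ?_⟩
    · have h4 : e * (b ^ 2 - 1) = e * (b + 1) * (b - 1) := by ring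
      have h5 : a * (b - 1) * N = a * N * (b - 1) := by ring
      rw [h4, h5]
      exact mul_lt_mul_of_pos_right h1 (by linarith)
    · have h4 : a * N < e' * (b + 1) := by
        rcases lt_trichotomy (e' * (b + 1)) (a * N) with h5 | h5 | h5
        · have := (up e' he' h5).1
          rw [← h3] at this
          linarith
        · exact absurd h5 (hfix e')
        · exact h5
      obtain ⟨-, -, e'', he'', h6⟩ := h e' he'
      have h7 : e'' * (b + 1) < a * N := by
        rcases lt_trichotomy (e'' * (b + 1)) (a * N) with h5 | h5 | h5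
        · exact h5
        · exact absurd h5 (hfix e'')
        · have := down e'' he'' h5
          rw [← h6] at this
          linarith
      refine ⟨e'', Finset.mem_filter.mpr ⟨he'', h7⟩, ?_⟩
      rw [(up e'' he'' h7).2] at h6
      rw [h3, h6, ← abs_neg]
      congr 1
      ring

theorem PP_false {k : ℕ} (h : PP (bb k + 1) (cc k) (cc 0) (bb 0)) : False := by
  have key : ∀ j : ℕ, j ≤ k → PP (bb k + 1) (cc k) (cc j) (bb j) := by
    intro j
    induction j with
    | zero => intro _; exact h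
    | succ j ih =>
      intro hj
      obtain ⟨d, rfl⟩ := Nat.exists_eq_add_of_le hj
      have h1 := ih (by omega)
      rw [cc_succ, bb_succ]
      exact step (bb_ge j) (cc_pos _) (ineq d j) (fun e => not_fix d j e) h1
  obtain ⟨O, hO, h1⟩ := key k le_rfl
  obtain ⟨e, he⟩ := hO
  have h2 := bound (bb_ge k) ⟨e, he⟩ h1 e he
  have h3 := (h1 e he).1
  have h4 : cc k * (bb k + 1) - bb k * cc k = cc k := by ring
  linarith

/-- Orbit codes modulo Fermat numbers. -/
theorem sharp (k : ℕ) (h : ℤ) (hh : ¬ (2 : ℤ) ^ (2 ^ k) + 1 ∣ h) :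
    ∃ i < 2 ^ k, (2 : ℤ) ^ (2 ^ k) + 1 - cc k ≤ 2 * (2 ^ i * h % (2 ^ (2 ^ k) + 1)) ∧
      2 * (2 ^ i * h % (2 ^ (2 ^ k) + 1)) ≤ (2 : ℤ) ^ (2 ^ k) + 1 + cc k := by
  by_contra hcon
  push Not at hcon
  set n := 2 ^ k with hn
  have hn0 : 0 < n := by positivity
  set N : ℤ := 2 ^ n + 1 with hN
  have hNpos : 0 < N := by positivity
  set x : ℕ → ℤ := fun i => 2 ^ i * h % N with hx
  have hx0 : ∀ i, 0 ≤ x i := fun i => Int.emod_nonneg _ hNpos.ne'
  have hx1 : ∀ i, x i < N := fun i => Int.emod_lt_of_pos _ hNpos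
  set e : ℕ → ℤ := fun i => |N - 2 * x i| with he
  have hbig : ∀ i < n, cc k < e i := by
    intro i hi
    have h1 := hcon i hi
    show cc k < |N - 2 * x i|
    rcases le_or_gt (N - cc k) (2 * x i) with h2 | h2
    · have := h1 h2
      rw [lt_abs]
      right
      show cc k < -(N - 2 * x i)
      have h3 : N + cc k < 2 * x i := this
      linarith
    · rw [lt_abs]
      left
      linarith
  have hcop : IsCoprime N 2 := by
    refine ⟨1, -2 ^ (n - 1), ?_⟩
    have h1 : (2 : ℤ) ^ n = 2 ^ (n - 1) * 2 := by rw [← pow_succ, Nat.sub_add_cancel hn0]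
    rw [hN, h1]
    ring
  have hxne : ∀ i, 0 < x i := by
    intro i
    refine lt_of_le_of_ne (hx0 i) ?_
    intro h0
    have h1 : N ∣ 2 ^ i * h := Int.dvd_of_emod_eq_zero h0.symm
    exact hh ((hcop.pow_right (n := i)).dvd_of_dvd_mul_left h1)
  have hmod : ∀ i, x i ≡ 2 ^ i * h [ZMOD N] := fun i => Int.mod_modEq _ _
  have hnextx : ∀ i, x (i + 1) = 2 * x i % N := by
    intro i
    have h1 : 2 * x i ≡ 2 * (2 ^ i * h) [ZMOD N] := (hmod i).mul_left 2
    have h2 : 2 * (2 ^ i * h) = 2 ^ (i + 1) * h := by rw [pow_succ]; ring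
    rw [h2] at h1
    exact h1.symm
  have hnext : ∀ i, e (i + 1) = |N - 2 * e i| := by
    intro i
    have hei : e i = |N - 2 * x i| := rfl
    rw [hei]
    have hei : e (i + 1) = |N - 2 * x (i + 1)| := rfl
    rw [hei]
    have h0 := hx0 i
    have h1 := hx1 i
    rcases lt_or_ge (2 * x i) N with h2 | h2
    · have h3 : x (i + 1) = 2 * x i := by rw [hnextx, Int.emod_eq_of_lt (by linarith) h2]
      rw [h3, abs_of_pos (by linarith : 0 < N - 2 * x i), ← abs_neg]
      congr 1
      ring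
    · have h3 : x (i + 1) = 2 * x i - N := by
        rw [hnextx, ← Int.sub_emod_right, Int.emod_eq_of_lt (by linarith) (by linarith)]
      rw [h3, abs_of_nonpos (by linarith : N - 2 * x i ≤ 0)]
      congr 1
      ring
  have hxn : x n = N - x 0 := by
    have h1 : N ∣ x n + x 0 := by
      have h2 : x n + x 0 ≡ 2 ^ n * h + 2 ^ 0 * h [ZMOD N] := (hmod n).add (hmod 0)
      have h3 : 2 ^ n * h + 2 ^ 0 * h = N * h := by rw [hN]; ring
      rw [h3] at h2
      have h4 : N * h ≡ 0 [ZMOD N] := (Int.modEq_zero_iff_dvd).mpr (dvd_mul_right _ _)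
      exact Int.modEq_zero_iff_dvd.mp (h2.trans h4)
    obtain ⟨m, hm⟩ := h1
    have h2 := hxne n
    have h3 := hxne 0
    have h4 := hx1 n
    have h5 := hx1 0
    have h6 : 0 < m := by
      by_contra h7
      push Not at h7
      nlinarith
    have h7 : m < 2 := by
      by_contra h7
      push Not at h7
      nlinarith
    have h8 : m = 1 := by omega
    rw [h8] at hm
    linarith
  have hper : e n = e 0 := by
    show |N - 2 * x n| = |N - 2 * x 0|
    rw [hxn, ← abs_neg]
    congr 1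
    ring
  have hlt : ∀ i, i < n → e i < N := by
    intro i _
    show |N - 2 * x i| < N
    have h1 := hxne i
    have h2 := hx1 i
    rw [abs_lt]
    constructor <;> linarith
  apply PP_false (k := k)
  refine ⟨(Finset.range n).image e, ?_, ?_⟩
  · exact (Finset.nonempty_range_iff.mpr hn0.ne').image e
  · intro y hy
    obtain ⟨i, hi, rfl⟩ := Finset.mem_image.mp hy
    have hi := Finset.mem_range.mp hi
    refine ⟨hbig i hi, ?_, ?_⟩
    · have := hlt i hi
      simp only [cc, bb_zero]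
      show e i * (2 - 1) < 1 * N
      linarith
    · simp only [cc, bb_zero]
      rcases Nat.eq_zero_or_pos i with rfl | hi0
      · refine ⟨e (n - 1), Finset.mem_image_of_mem e (Finset.mem_range.mpr (by omega)), ?_⟩
        have := hnext (n - 1)
        rw [Nat.sub_add_cancel hn0, hper] at this
        rw [this]
        show |N - 2 * e (n - 1)| = |1 * N - 2 * e (n - 1)|
        rw [one_mul]
      · refine ⟨e (i - 1), Finset.mem_image_of_mem e (Finset.mem_range.mpr (by omega)), ?_⟩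
        have := hnext (i - 1)
        rw [Nat.sub_add_cancel hi0] at this
        rw [this]
        show |N - 2 * e (i - 1)| = |1 * N - 2 * e (i - 1)|
        rw [one_mul]

end Pool.Agent.FGC
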