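import Pool.Agent.FGC.Sharp

/-!
MP_fc334d: the subgroup codes generated by `(p 2^i)_(i < n)` in `(ZMod (p N))^n`, `n = 2 ^ k`, `N = 2 ^ n + 1`.
-/

set_option autoImplicit false

namespace Pool.Agent.FGC

/-- The modulus `2 ^ (2 ^ k) + 1` as a natural number. -/
def NN (k : ℕ) : ℕ := 2 ^ (2 ^ k) + 1

theorem NN_cast (k : ℕ) : ((NN k : ℕ) : ℤ) = 2 ^ (2 ^ k) + 1 := by
  unfold NN
  push_cast
  rfl

theorem NN_pos (k : ℕ) : 0 < NN k := by
  unfold NN
  positivity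

/-- Values in `ZMod (p N)` of multiples of `p`. -/
theorem val_mul {p N : ℕ} (hp : 0 < p) (hN : 0 < N) (m : ℤ) :
    ((((p : ℤ) * m : ℤ) : ZMod (p * N)).val : ℤ) = p * (m % N) := by
  have hpN : 0 < p * N := Nat.mul_pos hp hN
  have : NeZero (p * N) := ⟨hpN.ne'⟩
  rw [ZMod.val_intCast]
  push_cast
  exact Int.mul_emod_mul_of_pos m N (by exact_mod_cast hp)

theorem sharp_grp (k p q : ℕ) (hp : 0 < p)
    (hpq : 2 * ((NN k : ℤ)) * q ≤ ((NN k : ℤ) - cc k) * p) :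
    ∃ H : AddSubgroup (Fin (2 ^ k) → ZMod (p * NN k)), Nat.card H = NN k ∧
      (∀ x ∈ H, x ≠ 0 → ∃ i, q * NN k ≤ (x i).val ∧ q * NN k ≤ (-x i).val) ∧
      ∀ i, ∃ j, (∀ x ∈ H, x j = 2 * x i) ∨ (∀ x ∈ H, x j = -(2 * x i)) := by
  have hN := NN_pos k
  have hpN : 0 < p * NN k := Nat.mul_pos hp hN
  have : NeZero (p * NN k) := ⟨hpN.ne'⟩
  set v : Fin (2 ^ k) → ZMod (p * NN k) := fun i => (((p : ℤ) * 2 ^ (i : ℕ) : ℤ) : ZMod (p * NN k)) with hv
  have hel : ∀ m : ℤ, ∀ i, (m • v) i = (((p : ℤ) * (2 ^ (i : ℕ) * m) : ℤ) : ZMod (p * NN k)) := by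
    intro m i
    rw [Pi.smul_apply, hv]
    simp only [zsmul_eq_mul]
    push_cast
    ring
  have hzero : ∀ m : ℤ, ((NN k : ℕ) : ℤ) ∣ m → m • v = 0 := by
    rintro m ⟨t, rfl⟩
    funext i
    rw [hel, Pi.zero_apply, ZMod.intCast_zmod_eq_zero_iff_dvd]
    refine ⟨2 ^ (i : ℕ) * t, ?_⟩
    push_cast
    ring
  have h0 : 0 < 2 ^ k := by positivity
  have hzero' : ∀ m : ℤ, m • v = 0 → ((NN k : ℕ) : ℤ) ∣ m := by
    intro m hm
    have h1 := congrFun hm ⟨0, h0⟩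
    rw [hel, Pi.zero_apply, ZMod.intCast_zmod_eq_zero_iff_dvd] at h1
    push_cast at h1
    rw [one_mul] at h1
    exact Int.dvd_of_mul_dvd_mul_left (by exact_mod_cast hp.ne') h1
  have hord : addOrderOf v = NN k := by
    apply Nat.dvd_antisymm
    · rw [addOrderOf_dvd_iff_nsmul_eq_zero]
      have := hzero (NN k) (dvd_refl _)
      rwa [natCast_zsmul] at this
    · have := hzero' (addOrderOf v) (by rw [natCast_zsmul]; exact addOrderOf_nsmul_eq_zero v)
      exact_mod_cast this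
  refine ⟨AddSubgroup.zmultiples v, ?_, ?_, ?_⟩
  · rw [Nat.card_zmultiples, hord]
  · intro x hx hx0
    obtain ⟨m, rfl⟩ := AddSubgroup.mem_zmultiples_iff.mp hx
    have hm : ¬ (2 : ℤ) ^ (2 ^ k) + 1 ∣ m := by
      intro h
      rw [← NN_cast] at h
      exact hx0 (hzero m h)
    obtain ⟨i, hi, h1, h2⟩ := sharp k m hm
    rw [← NN_cast] at h1 h2
    refine ⟨⟨i, hi⟩, ?_, ?_⟩
    · have h3 := val_mul hp hN (2 ^ i * m)
      rw [hel]
      have h4 : ((q * NN k : ℕ) : ℤ) ≤ (((((p : ℤ) * (2 ^ i * m) : ℤ) : ZMod (p * NN k)).val : ℕ) : ℤ) := by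
        rw [h3]
        push_cast
        have hp' : (0 : ℤ) < p := by exact_mod_cast hp
        nlinarith
      exact_mod_cast h4
    · rw [hel]
      have h5 : -((((p : ℤ) * (2 ^ i * m) : ℤ)) : ZMod (p * NN k)) = (((p : ℤ) * (-(2 ^ i * m)) : ℤ) : ZMod (p * NN k)) := by
        push_cast
        ring
      have h3 := val_mul hp hN (-(2 ^ i * m))
      show q * NN k ≤ (-((((p : ℤ) * (2 ^ i * m) : ℤ)) : ZMod (p * NN k))).val
      rw [h5]
      have h4 : ((q * NN k : ℕ) : ℤ) ≤ (((((p : ℤ) * (-(2 ^ i * m)) : ℤ) : ZMod (p * NN k)).val : ℕ) : ℤ) := by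
        rw [h3]
        push_cast
        have hp' : (0 : ℤ) < p := by exact_mod_cast hp
        have hN' : (0 : ℤ) < NN k := by exact_mod_cast hN
        have h6 : (-(2 ^ i * m)) % (NN k : ℤ) = NN k - (2 ^ i * m) % NN k := by
          have h7 : (-(2 ^ i * m)) % (NN k : ℤ) = (NN k - (2 ^ i * m) % NN k) % NN k := by
            rw [Int.neg_emod_eq_sub_emod, Int.sub_emod_emod]
          rw [h7]
          have h8 := two_cc_le k
          have h9 : bb k = NN k - 1 := by rw [NN_cast]; unfold bb; ring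
          have h10 : (2 ^ i * m) % (NN k : ℤ) < NN k := Int.emod_lt_of_pos _ hN'
          exact Int.emod_eq_of_lt (by linarith) (by linarith)
        rw [h6]
        nlinarith
      exact_mod_cast h4
  · intro i
    by_cases hi : (i : ℕ) + 1 < 2 ^ k
    · refine ⟨⟨i + 1, hi⟩, Or.inl ?_⟩
      intro x hx
      obtain ⟨m, rfl⟩ := AddSubgroup.mem_zmultiples_iff.mp hx
      rw [hel, hel]
      push_cast
      ring
    · refine ⟨⟨0, h0⟩, Or.inr ?_⟩
      intro x hx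
      obtain ⟨m, rfl⟩ := AddSubgroup.mem_zmultiples_iff.mp hx
      rw [hel, hel]
      have h1 : (i : ℕ) + 1 = 2 ^ k := by
        have := i.2
        omega
      have h2 : (2 : ℤ) * (p * (2 ^ (i : ℕ) * m)) = (p * NN k) * m - p * m := by
        have h5 : (2 : ℤ) ^ (2 ^ k) = 2 ^ ((i : ℕ) + 1) := congrArg (fun t : ℕ => (2 : ℤ) ^ t) h1.symm
        rw [NN_cast, h5, pow_succ]
        ring
      have h3 : (((2 : ℤ) * (p * (2 ^ (i : ℕ) * m)) : ℤ) : ZMod (p * NN k)) = -(((p : ℤ) * m : ℤ) : ZMod (p * NN k)) := by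
        rw [h2]
        have h4 : (((p * NN k : ℕ) : ZMod (p * NN k))) = 0 := ZMod.natCast_self _
        push_cast at h4 ⊢
        rw [h4]
        ring
      push_cast at h3 ⊢
      rw [h3]
      ring

end Pool.Agent.FGC
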